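import Mathlib

set_option autoImplicit false

open Set Filter Topology MeasureTheory

namespace Pool.Agent.MP_15e54c_lc.H83

/-- A continuous injection of the Baire space into the Cantor group. -/
def code (c : ℕ → ℕ) (j : ℕ) : ZMod 2 := if c (Nat.unpair j).1 = (Nat.unpair j).2 then 1 else 0

theorem code_injective : Function.Injective code := by
  intro c c' h
  funext i
  have := congrFun h (Nat.pair i (c i))
  simp only [code, Nat.unpair_pair, if_true] at this
  by_contra hne
  rw [if_neg (fun e => hne e.symm)] at this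
  exact one_ne_zero this

theorem continuous_code (j : ℕ) : Continuous fun c => code c j := by
  have h : Continuous fun n : ℕ => if n = (Nat.unpair j).2 then (1 : ZMod 2) else 0 :=
    continuous_of_discreteTopology
  exact h.comp (continuous_apply (Nat.unpair j).1)

/-- The marked sequence. -/
def gg : Option ℕ → (ℕ → ZMod 2) → (ℕ → ZMod 2) → ℕ → ZMod 2
  | none, _, k, i => if i = 0 then 1 else k (i - 1)
  | some m, t, k, i => if i = m + 1 then 1 else if i ≤ m + 2 then 0 else
      if (i - (m + 3)) % 2 = 0 then k ((i - (m + 3)) / 2) else t i + k ((i - (m + 3)) / 2)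

/-- The position of the first nonzero entry of `t`. -/
def Cond : Option ℕ → (ℕ → ZMod 2) → Prop
  | none, t => ∀ i, t i = 0
  | some m, t => (∀ i < m + 2, t i = 0) ∧ t (m + 2) = 1

/-- The position of the marker. -/
def mark : Option ℕ → ℕ
  | none => 0
  | some m => m + 1

theorem zmod2 (a : ZMod 2) : a = 0 ∨ a = 1 := by
  revert a; decide

theorem zmod2_add_self (a : ZMod 2) : a + a = 0 := by
  revert a; decide

theorem exists_cond {t : ℕ → ZMod 2} (h0 : t 0 = 0) (h1 : t 1 = 0) : ∃ τ, Cond τ t := by
  by_cases h : ∃ i, t i ≠ 0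
  · classical
    have hs := Nat.find_spec h
    have hm : ∀ i < Nat.find h, t i = 0 := fun i hi => not_not.1 (Nat.find_min h hi)
    obtain ⟨m, hm2⟩ : ∃ m, Nat.find h = m + 2 := by
      rcases hn : Nat.find h with _ | _ | m
      · rw [hn] at hs; exact absurd h0 hs
      · rw [hn] at hs; exact absurd h1 hs
      · exact ⟨m, rfl⟩
    rw [hm2] at hs hm
    exact ⟨some m, hm, (zmod2 _).resolve_left hs⟩
  · exact ⟨none, fun i => not_not.1 fun hi => h ⟨i, hi⟩⟩

theorem at_mark {τ : Option ℕ} {t : ℕ → ZMod 2} (h : Cond τ t) (ε : ZMod 2) (k : ℕ → ZMod 2) :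
    gg τ t k (mark τ) + ε * t (mark τ) = 1 := by
  cases τ with
  | none => simp [gg, mark, h 0]
  | some m => simp [gg, mark, h.1 (m + 1) (by omega)]

theorem before_mark {τ : Option ℕ} {t : ℕ → ZMod 2} (h : Cond τ t) (ε : ZMod 2)
    (k : ℕ → ZMod 2) {i : ℕ} (hi : i < mark τ) : gg τ t k i + ε * t i = 0 := by
  cases τ with
  | none => exact absurd hi (Nat.not_lt_zero _)
  | some m =>
    have hi' : i < m + 1 := hi
    simp only [gg]
    rw [if_neg (by omega), if_pos (by omega), h.1 i (by omega)]
    simp

theorem decode {τ τ' : Option ℕ} {t t' k k' : ℕ → ZMod 2} {ε ε' : ZMod 2} (h : Cond τ t)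
    (h' : Cond τ' t') (e : ∀ i, gg τ t k i + ε * t i = gg τ' t' k' i + ε' * t' i) :
    τ = τ' ∧ k = k' := by
  have hm : mark τ = mark τ' := by
    rcases lt_trichotomy (mark τ) (mark τ') with hlt | heq | hlt
    · have := e (mark τ)
      rw [at_mark h, before_mark h' _ _ hlt] at this
      exact absurd this one_ne_zero
    · exact heq
    · have := e (mark τ')
      rw [at_mark h', before_mark h _ _ hlt] at this
      exact absurd this.symm one_ne_zero
  have hτ : τ = τ' := by
    cases τ <;> cases τ' <;> simp_all [mark]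
  subst hτ
  refine ⟨rfl, funext fun j => ?_⟩
  cases τ with
  | none =>
    have := e (j + 1)
    simpa [gg, h (j + 1), h' (j + 1)] using this
  | some m =>
    have hε : ε = ε' := by
      have := e (m + 2)
      simpa [gg, h.2, h'.2] using this
    subst hε
    rcases zmod2 ε with rfl | rfl
    · have := e (m + 3 + 2 * j)
      simp only [gg] at this
      rw [if_neg (by omega), if_neg (by omega), if_pos (by omega), if_neg (by omega),
        if_neg (by omega), if_pos (by omega),
        show (m + 3 + 2 * j - (m + 3)) / 2 = j by omega] at this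
      simpa using this
    · have := e (m + 4 + 2 * j)
      simp only [gg] at this
      rw [if_neg (by omega), if_neg (by omega), if_neg (by omega), if_neg (by omega),
        if_neg (by omega), if_neg (by omega),
        show (m + 4 + 2 * j - (m + 3)) / 2 = j by omega, one_mul, one_mul,
        add_right_comm, zmod2_add_self, add_right_comm, zmod2_add_self, zero_add, zero_add] at this
      exact this

theorem isClosed_cond {Y : Type} [TopologicalSpace Y] {t : Y → ℕ → ZMod 2}
    (ht : ∀ i, Continuous fun y => t y i) (τ : Option ℕ) : IsClosed {y | Cond τ (t y)} := by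
  cases τ with
  | none =>
    show IsClosed {y | ∀ i, t y i = 0}
    rw [ofPred_forall]
    exact isClosed_iInter fun i => isClosed_eq (ht i) continuous_const
  | some m =>
    refine IsClosed.inter ?_ (isClosed_eq (ht _) continuous_const)
    show IsClosed {y | ∀ i < m + 2, t y i = 0}
    simp only [ofPred_forall]
    exact isClosed_iInter fun i => isClosed_iInter fun _ => isClosed_eq (ht i) continuous_const

theorem continuous_gg {Y : Type} [TopologicalSpace Y] {t k : Y → ℕ → ZMod 2}
    (ht : ∀ i, Continuous fun y => t y i) (hk : ∀ i, Continuous fun y => k y i) (τ : Option ℕ)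
    (i : ℕ) : Continuous fun y => gg τ (t y) (k y) i := by
  cases τ with
  | none =>
    simp only [gg]
    split_ifs
    · exact continuous_const
    · exact hk _
  | some m =>
    simp only [gg]
    split_ifs
    · exact continuous_const
    · exact continuous_const
    · exact hk _
    · exact (ht _).add (hk _)

/-- A Borel set whose difference set captures a given analytic set. -/
theorem exists_borel {D : Type} (s : (ℕ → ℕ) → (D ⊕ ℕ → ZMod 2)) (hs : Continuous s) :
    ∃ B : Set (D ⊕ ℕ → ZMod 2), @MeasurableSet _ (borel _) B ∧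
      (∀ c, s c (Sum.inr 0) = 0 → s c (Sum.inr 1) = 0 → ∃ b ∈ B, ∃ b' ∈ B, b + s c = b') ∧
      ∀ b ∈ B, ∀ b' ∈ B, (∀ i, b (Sum.inr i) = b' (Sum.inr i)) → b = b' ∨ ∃ c, b + s c = b' := by
  let t : (ℕ → ℕ) → ℕ → ZMod 2 := fun c i => s c (Sum.inr i)
  have ht : ∀ i, Continuous fun c => t c i := fun i => (continuous_apply _).comp hs
  let β : Option ℕ × ZMod 2 → (ℕ → ℕ) → (D ⊕ ℕ → ZMod 2) := fun p c =>
    (Sum.elim (fun _ => 0) (gg p.1 (t c) (code c)) : D ⊕ ℕ → ZMod 2) + p.2 • s c
  have hβ : ∀ p, Continuous (β p) := by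
    intro p
    refine Continuous.fun_add (continuous_pi fun i => ?_) (hs.fun_const_smul _)
    cases i with
    | inl d => exact continuous_const
    | inr i => exact continuous_gg ht continuous_code p.1 i
  have hdec : ∀ p p' c c', Cond p.1 (t c) → Cond p'.1 (t c') →
      (∀ i, β p c (Sum.inr i) = β p' c' (Sum.inr i)) → p.1 = p'.1 ∧ c = c' := by
    intro p p' c c' h h' e
    obtain ⟨h1, h2⟩ := decode (ε := p.2) (ε' := p'.2) (k := code c) (k' := code c') h h' e
    exact ⟨h1, code_injective h2⟩
  refine ⟨⋃ p, β p '' {c | Cond p.1 (t c)}, ?_, ?_, ?_⟩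
  · let : MeasurableSpace (D ⊕ ℕ → ZMod 2) := borel _
    have : BorelSpace (D ⊕ ℕ → ZMod 2) := ⟨rfl⟩
    refine MeasurableSet.iUnion fun p => ?_
    exact (isClosed_cond ht p.1).measurableSet_image_of_continuousOn_injOn (hβ p).continuousOn
      fun c hc c' hc' e => (hdec p p c c' hc hc' fun i => congrFun e _).2
  · intro c h0 h1
    obtain ⟨τ, hτ⟩ := exists_cond (t := t c) h0 h1
    refine ⟨β (τ, 0) c, mem_iUnion.2 ⟨(τ, 0), c, hτ, rfl⟩, β (τ, 1) c,
      mem_iUnion.2 ⟨(τ, 1), c, hτ, rfl⟩, ?_⟩
    simp [β]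
  · intro b hb b' hb' e
    obtain ⟨⟨τ, ε⟩, c, hc, rfl⟩ := mem_iUnion.1 hb
    obtain ⟨⟨τ', ε'⟩, c', hc', rfl⟩ := mem_iUnion.1 hb'
    obtain ⟨h1, rfl⟩ := hdec _ _ c c' hc hc' e
    obtain rfl : τ = τ' := h1
    have h2 : s c + s c = 0 := funext fun i => zmod2_add_self _
    rcases zmod2 ε with rfl | rfl <;> rcases zmod2 ε' with rfl | rfl
    · exact Or.inl rfl
    · exact Or.inr ⟨c, by simp [β]⟩
    · exact Or.inr ⟨c, by simp [β, add_assoc, h2]⟩
    · exact Or.inl rfl

end Pool.Agent.MP_15e54c_lc.H83
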