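import Mathlib

set_option autoImplicit false

open Set Filter Topology MeasureTheory

namespace Pool.Agent.MP_15e54c_lc.H83

/-- Codes of binary relations on the natural numbers. -/
abbrev X : Type := ℕ × ℕ → Bool

/-- The relation coded by `x`. -/
def rel (x : X) (m n : ℕ) : Prop := x (m, n) = true

/-- `x` codes a well-order. -/
def WO (x : X) : Prop := IsWellOrder ℕ (rel x)

open Classical in
/-- The order type of a code. -/
noncomputable def tp (x : X) : Ordinal.{0} :=
  if h : WO x then @Ordinal.type ℕ (rel x) h else 0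

theorem tp_eq {x : X} (h : WO x) : tp x = @Ordinal.type ℕ (rel x) h := dif_pos h

/-- Pairs of codes of non-isomorphic well-orders. -/
def G0 (x y : X) : Prop := WO x ∧ WO y ∧ tp x ≠ tp y

theorem G0.symm {x y : X} (h : G0 x y) : G0 y x := ⟨h.2.1, h.1, h.2.2.symm⟩

theorem G0.ne {x y : X} (h : G0 x y) : x ≠ y := fun e => h.2.2 (e ▸ rfl)

/-- A witness that `x` is not a well-order. -/
def Bad (x : X) (f : ℕ → ℕ) : Prop :=
  (x (f 0, f 1) = false ∧ x (f 1, f 0) = false ∧ f 0 ≠ f 1) ∨ ∀ k, x (f (k + 1), f k) = true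

/-- A witness of an isomorphism. -/
def IsoVia (x y : X) (f g : ℕ → ℕ) : Prop :=
  (∀ n, g (f n) = n) ∧ (∀ n, f (g n) = n) ∧ ∀ m n, x (m, n) = y (f m, f n)

theorem not_WO_iff (x : X) : ¬ WO x ↔ ∃ f, Bad x f := by
  constructor
  · intro h
    by_contra hcon
    refine h ?_
    have hwf : WellFounded (rel x) := by
      rw [wellFounded_iff_isEmpty_descending_chain]
      exact ⟨fun f => hcon ⟨f.1, Or.inr f.2⟩⟩
    have htri : ∀ a b, ¬ rel x a b → ¬ rel x b a → a = b := by
      intro a b h1 h2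
      by_contra hne
      refine hcon ⟨fun k => if k = 0 then a else b, Or.inl ⟨?_, ?_, ?_⟩⟩
      · simpa [rel] using h1
      · simpa [rel] using h2
      · simpa using hne
    exact { wf := hwf, trichotomous := htri }
  · rintro ⟨f, ⟨h1, h2, h3⟩ | h⟩ hW
    · exact h3 (hW.trichotomous _ _ (by simp [rel, h1]) (by simp [rel, h2]))
    · exact (wellFounded_iff_isEmpty_descending_chain.1 hW.wf).elim ⟨f, h⟩

theorem tp_eq_iff {x y : X} (hx : WO x) (hy : WO y) :
    tp x = tp y ↔ ∃ f g, IsoVia x y f g := by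
  rw [tp_eq hx, tp_eq hy, @Ordinal.type_eq _ _ _ _ hx hy]
  constructor
  · rintro ⟨e⟩
    refine ⟨e, e.symm, e.symm_apply_apply, e.apply_symm_apply, fun m n => ?_⟩
    have := e.map_rel_iff (a := m) (b := n)
    unfold rel at this
    exact Bool.eq_iff_iff.2 this.symm
  · rintro ⟨f, g, h1, h2, h3⟩
    exact ⟨⟨⟨f, g, h1, h2⟩, fun {a b} => by
      unfold rel
      rw [h3]
      rfl⟩⟩

theorem not_G0_iff (x y : X) :
    ¬ G0 x y ↔ ∃ f g : ℕ → ℕ, Bad x f ∨ Bad y f ∨ IsoVia x y f g := by
  constructor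
  · intro h
    by_cases hx : WO x
    · by_cases hy : WO y
      · have : tp x = tp y := by
          by_contra hne
          exact h ⟨hx, hy, hne⟩
        obtain ⟨f, g, hfg⟩ := (tp_eq_iff hx hy).1 this
        exact ⟨f, g, Or.inr (Or.inr hfg)⟩
      · obtain ⟨f, hf⟩ := (not_WO_iff y).1 hy
        exact ⟨f, f, Or.inr (Or.inl hf)⟩
    · obtain ⟨f, hf⟩ := (not_WO_iff x).1 hx
      exact ⟨f, f, Or.inl hf⟩
  · rintro ⟨f, g, h | h | h⟩ ⟨hx, hy, hne⟩
    · exact (not_WO_iff x).2 ⟨f, h⟩ hx
    · exact (not_WO_iff y).2 ⟨f, h⟩ hy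
    · exact hne ((tp_eq_iff hx hy).2 ⟨f, g, h⟩)

theorem continuous_ev {Y J Z : Type} [TopologicalSpace Y] [TopologicalSpace J]
    [DiscreteTopology J] [TopologicalSpace Z] {x : Y → J → Z} {a : Y → J} (hx : Continuous x)
    (ha : Continuous a) : Continuous fun y => x y (a y) := by
  have : Continuous fun p : (J → Z) × J => p.1 p.2 :=
    continuous_prod_of_discrete_right.2 fun j => continuous_apply j
  exact this.comp (hx.prodMk ha)

theorem isClosed_bad {Y : Type} [TopologicalSpace Y] {x : Y → X} {f : Y → ℕ → ℕ}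
    (hx : Continuous x) (hf : Continuous f) : IsClosed {y | Bad (x y) (f y)} := by
  have h : ∀ i, Continuous fun y => f y i := fun i => (continuous_apply i).comp hf
  refine IsClosed.union (IsClosed.inter ?_ (IsClosed.inter ?_ ?_)) ?_
  · exact isClosed_eq (continuous_ev hx ((h 0).prodMk (h 1))) continuous_const
  · exact isClosed_eq (continuous_ev hx ((h 1).prodMk (h 0))) continuous_const
  · exact (isClosed_discrete {p : ℕ × ℕ | p.1 ≠ p.2}).preimage ((h 0).prodMk (h 1))
  · show IsClosed {y | ∀ k, x y (f y (k + 1), f y k) = true}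
    rw [ofPred_forall]
    exact isClosed_iInter fun k =>
      isClosed_eq (continuous_ev hx ((h (k + 1)).prodMk (h k))) continuous_const

theorem isClosed_iso {Y : Type} [TopologicalSpace Y] {x x' : Y → X} {f g : Y → ℕ → ℕ}
    (hx : Continuous x) (hx' : Continuous x') (hf : Continuous f) (hg : Continuous g) :
    IsClosed {y | IsoVia (x y) (x' y) (f y) (g y)} := by
  have h : ∀ i, Continuous fun y => f y i := fun i => (continuous_apply i).comp hf
  have h' : ∀ i, Continuous fun y => g y i := fun i => (continuous_apply i).comp hg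
  refine IsClosed.inter ?_ (IsClosed.inter ?_ ?_)
  · show IsClosed {y | ∀ n, g y (f y n) = n}
    rw [ofPred_forall]
    exact isClosed_iInter fun n => isClosed_eq (continuous_ev hg (h n)) continuous_const
  · show IsClosed {y | ∀ n, f y (g y n) = n}
    rw [ofPred_forall]
    exact isClosed_iInter fun n => isClosed_eq (continuous_ev hf (h' n)) continuous_const
  · show IsClosed {y | ∀ m n, x y (m, n) = x' y (f y m, f y n)}
    simp only [ofPred_forall]
    exact isClosed_iInter fun m => isClosed_iInter fun n =>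
      isClosed_eq ((continuous_apply _).comp hx) (continuous_ev hx' ((h m).prodMk (h n)))

theorem analytic_not_G0 : AnalyticSet {p : X × X | ¬ G0 p.1 p.2} := by
  have hcl : IsClosed {q : (X × X) × (ℕ → ℕ) × (ℕ → ℕ) |
      Bad q.1.1 q.2.1 ∨ Bad q.1.2 q.2.1 ∨ IsoVia q.1.1 q.1.2 q.2.1 q.2.2} :=
    (isClosed_bad (by fun_prop) (by fun_prop)).union
      ((isClosed_bad (by fun_prop) (by fun_prop)).union
        (isClosed_iso (by fun_prop) (by fun_prop) (by fun_prop) (by fun_prop)))
  have h1 : SecondCountableTopology ((X × X) × (ℕ → ℕ) × (ℕ → ℕ)) := inferInstance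
  have h2 : TopologicalSpace.IsCompletelyMetrizableSpace ((X × X) × (ℕ → ℕ) × (ℕ → ℕ)) :=
    inferInstance
  have h3 : PolishSpace ((X × X) × (ℕ → ℕ) × (ℕ → ℕ)) := inferInstance
  have := hcl.analyticSet.image_of_continuous continuous_fst
  convert this using 1
  ext p
  simp only [mem_ofPred_eq, not_G0_iff, mem_image]
  constructor
  · rintro ⟨f, g, h⟩
    exact ⟨(p, f, g), h, rfl⟩
  · rintro ⟨q, h, rfl⟩
    exact ⟨q.2.1, q.2.2, h⟩

open Ordinal Cardinal in
theorem exists_code {o : Ordinal.{0}} (h1 : ω ≤ o) (h2 : o < ω₁) : ∃ x, WO x ∧ tp x = o := by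
  classical
  have hc : #o.ToType = #ℕ := by
    rw [mk_toType, mk_nat]
    refine le_antisymm ?_ (aleph0_le_card.2 h1)
    rw [lt_omega_iff_card_lt, ← succ_aleph0] at h2
    exact Order.lt_succ_iff.1 h2
  obtain ⟨e⟩ := Cardinal.eq.1 hc
  let x : X := fun p => decide (e.symm p.1 < e.symm p.2)
  let i : rel x ≃r ((· < ·) : o.ToType → o.ToType → Prop) :=
    ⟨e.symm, fun {a b} => by simp [rel, x]⟩
  have hx : WO x := i.toRelEmbedding.isWellOrder
  refine ⟨x, hx, ?_⟩
  rw [tp_eq hx, @RelIso.ordinalType_congr _ _ _ _ hx _ i]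
  exact type_toType o

open Ordinal Cardinal in
theorem exists_uncountable : ∃ Y : Set X, ¬ Y.Countable ∧ Y.Pairwise G0 := by
  choose c hc1 hc2 using fun o : Ico (ω : Ordinal.{0}) ω₁ => exists_code o.2.1 o.2.2
  refine ⟨range c, fun h => ?_, ?_⟩
  · have h1 : (Ico (ω : Ordinal.{0}) ω₁).Countable := by
      refine (h.image tp).mono fun o ho => ?_
      exact ⟨c ⟨o, ho⟩, mem_range_self _, hc2 _⟩
    have h2 : (Iio (ω : Ordinal.{0})).Countable := by
      rw [← le_aleph0_iff_set_countable, Cardinal.mk_Iio_ordinal]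
      simp
    have h3 : (Iio (ω₁ : Ordinal.{0})).Countable := by
      refine (h2.union h1).mono fun o ho => ?_
      by_cases h : o < ω
      · exact Or.inl h
      · exact Or.inr ⟨not_lt.1 h, ho⟩
    rw [← le_aleph0_iff_set_countable, Cardinal.mk_Iio_ordinal, card_omega, lift_le_aleph0] at h3
    exact absurd aleph0_lt_aleph_one (not_lt.2 h3)
  · rintro _ ⟨o, rfl⟩ _ ⟨o', rfl⟩ hne
    refine ⟨hc1 o, hc1 o', fun h => hne ?_⟩
    rw [hc2, hc2] at h
    rw [Subtype.ext h]

/-- `x` agrees with the finite pattern `d`. -/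
def Agr {J : Type} (x : J → Bool) (d : Finset (J × Bool)) : Prop := ∀ p ∈ d, x p.1 = p.2

theorem isClopen_agr {J : Type} (d : Finset (J × Bool)) : IsClopen {x : J → Bool | Agr x d} := by
  have : {x : J → Bool | Agr x d} = ⋂ p ∈ d, (fun x : J → Bool => x p.1) ⁻¹' {p.2} := by
    ext x; simp [Agr]
  rw [this]
  exact isClopen_biInter_finset fun p _ =>
    (isClopen_discrete _).preimage (continuous_apply p.1)

/-- The boundedness theorem for closed sets of codes of well-orders. -/
theorem countable_types {Z : Set X} (hZ : IsClosed Z) (hW : ∀ x ∈ Z, WO x) :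
    (tp '' Z).Countable := by
  classical
  let R : Finset ((ℕ × ℕ) × Bool) × ℕ → Finset ((ℕ × ℕ) × Bool) × ℕ → Prop := fun t' t =>
    t.1 ⊆ t'.1 ∧ ((t'.2, t.2), true) ∈ t'.1 ∧ ∃ x ∈ Z, Agr x t'.1
  have hwf : WellFounded R := by
    rw [wellFounded_iff_isEmpty_descending_chain]
    refine ⟨fun ⟨f, hf⟩ => ?_⟩
    obtain ⟨x, hx⟩ := IsCompact.nonempty_iInter_of_sequence_nonempty_isCompact_isClosed
      (fun k => Z ∩ {x | Agr x (f (k + 1)).1})
      (fun k x hx => ⟨hx.1, fun p hp => hx.2 p ((hf (k + 1)).1 hp)⟩)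
      (fun k => by
        obtain ⟨x, hx1, hx2⟩ := (hf k).2.2
        exact ⟨x, hx1, hx2⟩)
      (hZ.inter (isClopen_agr _).isClosed).isCompact
      (fun k => hZ.inter (isClopen_agr _).isClosed)
    rw [mem_iInter] at hx
    refine (wellFounded_iff_isEmpty_descending_chain.1 (hW x (hx 0).1).wf).elim
      ⟨fun k => (f k).2, fun k => ?_⟩
    exact (hx k).2 _ (hf k).2.1
  have : IsWellFounded _ R := ⟨hwf⟩
  have hrank : ∀ x ∈ Z, ∀ (hx : WO x) (n : ℕ) (d : Finset ((ℕ × ℕ) × Bool)), Agr x d →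
      @IsWellFounded.rank ℕ (rel x) hx.toIsWellFounded n ≤ IsWellFounded.rank R (d, n) := by
    intro x hxZ hx n
    induction n using hx.wf.induction with
    | _ n ih =>
      intro d hd
      rw [@IsWellFounded.rank_eq ℕ (rel x) hx.toIsWellFounded n]
      refine Ordinal.iSup_le fun b => Order.succ_le_of_lt ?_
      have hd' : Agr x (insert ((b.1, n), true) d) := by
        intro p hp
        rcases Finset.mem_insert.1 hp with rfl | hp
        · exact b.2
        · exact hd p hp
      refine (ih b.1 b.2 _ hd').trans_lt (IsWellFounded.rank_lt_of_rel ?_)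
      exact ⟨Finset.subset_insert _ _, Finset.mem_insert_self _ _, x, hxZ, hd'⟩
  have hsub : ∀ x ∈ Z, Iio (tp x) ⊆ range (IsWellFounded.rank R) := by
    intro x hxZ o ho
    have hx := hW x hxZ
    have : IsWellOrder ℕ (rel x) := hx
    rw [tp_eq hx] at ho
    obtain ⟨n, rfl⟩ := Ordinal.typein_surj (rel x) ho
    refine IsWellFounded.mem_range_rank_of_le (a := (∅, n)) ?_
    rw [← IsWellFounded.rank_eq_typein]
    exact hrank x hxZ hx n ∅ (by simp [Agr])
  have hss : (tp '' Z \ range (IsWellFounded.rank R)).Subsingleton := by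
    rintro _ ⟨⟨x, hx, rfl⟩, hx'⟩ _ ⟨⟨y, hy, rfl⟩, hy'⟩
    rcases lt_trichotomy (tp x) (tp y) with h | h | h
    · exact absurd (hsub y hy h) hx'
    · exact h
    · exact absurd (hsub x hx h) hy'
  refine ((countable_range (IsWellFounded.rank R)).union hss.countable).mono fun o ho => ?_
  by_cases h : o ∈ range (IsWellFounded.rank R)
  · exact Or.inl h
  · exact Or.inr ⟨ho, h⟩

end Pool.Agent.MP_15e54c_lc.H83
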