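import Mathlib
import Pool.Agent.MP_15e54c_lc.H83.WO
import Pool.Agent.MP_15e54c_lc.H83.Borel

set_option autoImplicit false

open Set Filter Topology MeasureTheory

namespace Pool.Agent.MP_15e54c_lc.H83

/-- Finite patterns. -/
abbrev D : Type := Finset ((ℕ × ℕ) × Bool)

/-- The ambient group. -/
abbrev G : Type := D ⊕ ℕ → ZMod 2

open Classical in
/-- A continuous, linearly independent copy of the space of codes. -/
noncomputable def Φ (x : X) : G :=
  Sum.elim (fun d => if Agr x d then 1 else 0) (fun _ => 0)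

theorem continuous_Φ : Continuous Φ := by
  classical
  refine continuous_pi fun i => ?_
  cases i with
  | inl d =>
    exact Continuous.if (by
      intro a ha
      rw [(isClopen_agr d).frontier_eq] at ha
      exact absurd ha (notMem_empty _)) continuous_const continuous_const
  | inr i => exact continuous_const

theorem linearIndependent_Φ : LinearIndependent (ZMod 2) Φ := by
  classical
  rw [linearIndependent_iff']
  intro s g hs x hx
  have hj : ∀ y : X, ∃ j, y ≠ x → y j ≠ x j := by
    intro y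
    by_cases h : y = x
    · exact ⟨(0, 0), fun h' => absurd h h'⟩
    · obtain ⟨j, hj⟩ := Function.ne_iff.1 h
      exact ⟨j, fun _ => hj⟩
  choose j hj using hj
  let d : D := s.image fun y => (j y, x (j y))
  have h1 : Agr x d := by
    intro p hp
    obtain ⟨y, -, rfl⟩ := Finset.mem_image.1 hp
    rfl
  have h2 : ∀ y ∈ s, y ≠ x → ¬ Agr y d := fun y hy hne h =>
    hj y hne (h _ (Finset.mem_image_of_mem _ hy))
  have := congrFun hs (Sum.inl d)
  rw [Finset.sum_apply, Finset.sum_eq_single x] at this
  · simpa [Φ, h1] using this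
  · intro y hy hne
    simp [Φ, h2 y hy hne]
  · intro h
    exact absurd hx h

theorem chi2 (χ : X → ZMod 2) {a b u v : X} (h : Φ a + Φ b = Φ u + Φ v) :
    χ a + χ b = χ u + χ v := by
  have h1 : (Finsupp.single a 1 + Finsupp.single b 1 : X →₀ ZMod 2) =
      Finsupp.single u 1 + Finsupp.single v 1 := by
    apply linearIndependent_Φ
    simpa using h
  simpa using congrArg (Finsupp.linearCombination (ZMod 2) χ) h1

theorem chi4 (χ : X → ZMod 2) {a b c d u v : X} (h : Φ a + Φ b + (Φ c + Φ d) = Φ u + Φ v) :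
    χ a + χ b + (χ c + χ d) = χ u + χ v := by
  have h1 : (Finsupp.single a 1 + Finsupp.single b 1 +
      (Finsupp.single c 1 + Finsupp.single d 1) : X →₀ ZMod 2) =
      Finsupp.single u 1 + Finsupp.single v 1 := by
    apply linearIndependent_Φ
    simpa using h
  simpa using congrArg (Finsupp.linearCombination (ZMod 2) χ) h1

theorem G0_of_eq {a b u v : X} (h : Φ a + Φ b = Φ u + Φ v) (huv : G0 u v) : G0 a b := by
  classical
  have h1 := chi2 (fun z => if z = u then 1 else 0) h
  have h2 := chi2 (fun z => if z = v then 1 else 0) h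
  have hne := huv.ne
  by_cases hau : a = u
  · by_cases hbv : b = v
    · rw [hau, hbv]; exact huv
    · simp [hau, hbv, hne] at h2
  · by_cases hbu : b = u
    · by_cases hav : a = v
      · rw [hbu, hav]; exact huv.symm
      · simp [hav, hbu, hne] at h2
    · simp [hau, hbu, hne.symm] at h1

theorem G_add_self (z : G) : z + z = 0 := funext fun _ => zmod2_add_self _

/-- The set of sums over `G0`. -/
def A : Set G := {z | ∃ x y, G0 x y ∧ z = Φ x + Φ y}

theorem zero_notMem_A : (0 : G) ∉ A := by
  rintro ⟨x, y, h, e⟩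
  have : Φ x + Φ x = Φ x + Φ y := by rw [G_add_self, e]
  exact (G0_of_eq this h).ne rfl

theorem analytic_compl_A : AnalyticSet Aᶜ := by
  have h1 : SecondCountableTopology G := inferInstance
  have h2 : TopologicalSpace.IsCompletelyMetrizableSpace G := inferInstance
  have h3 : PolishSpace G := inferInstance
  have hc : Continuous fun p : X × X => Φ p.1 + Φ p.2 :=
    (continuous_Φ.comp continuous_fst).add (continuous_Φ.comp continuous_snd)
  have ha : AnalyticSet (range fun p : X × X => Φ p.1 + Φ p.2)ᶜ := by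
    have := (isCompact_range hc).isClosed.isOpen_compl.analyticSet_image continuous_id
    simpa using this
  have hb := analytic_not_G0.image_of_continuous hc
  have := AnalyticSet.iUnion (s := fun b : Bool => cond b (range fun p : X × X => Φ p.1 + Φ p.2)ᶜ
    ((fun p : X × X => Φ p.1 + Φ p.2) '' {p : X × X | ¬ G0 p.1 p.2})) (by
      rintro (_ | _)
      exacts [hb, ha])
  convert this using 1
  ext z
  simp only [mem_compl_iff, mem_iUnion, Bool.exists_bool, cond_false, cond_true, mem_image,
    mem_range, mem_ofPred_eq]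
  constructor
  · intro hz
    by_cases h : ∃ p : X × X, Φ p.1 + Φ p.2 = z
    · obtain ⟨p, rfl⟩ := h
      exact Or.inl ⟨p, fun hp => hz ⟨p.1, p.2, hp, rfl⟩, rfl⟩
    · exact Or.inr h
  · rintro (⟨p, hp, rfl⟩ | h) ⟨x, y, hxy, e⟩
    · exact hp (G0_of_eq e hxy)
    · exact h ⟨(x, y), e.symm⟩

/-- No uncountable closed set has all its pairwise sums in `A`. -/
theorem no_closed {P : Set G} (hP : IsClosed P) (hA : P.Pairwise fun p q => p + q ∈ A) :
    P.Countable := by
  classical
  rcases P.eq_empty_or_nonempty with rfl | ⟨p₀, hp₀⟩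
  · exact countable_empty
  have key : ∀ i, (P ∩ {p | p i ≠ p₀ i}).Countable := by
    intro i
    set Q := P ∩ {p | p i ≠ p₀ i} with hQ
    have hQc : IsClosed Q :=
      hP.inter ((isClosed_discrete {a : ZMod 2 | a ≠ p₀ i}).preimage
        (f := fun p : G => p i) (continuous_apply i))
    have hQA : ∀ p ∈ Q, p + p₀ ∈ A := fun p hp => hA hp.1 hp₀ fun e => hp.2 (by rw [e])
    let Z : Set X := Prod.fst '' {q : X × X × G | q.2.2 ∈ Q ∧ q.2.2 + p₀ = Φ q.1 + Φ q.2.1}
    have hZc : IsClosed Z := by
      refine (IsCompact.image (IsClosed.isCompact ?_) continuous_fst).isClosed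
      refine IsClosed.inter (hQc.preimage (by fun_prop)) (isClosed_eq (by fun_prop) ?_)
      exact (continuous_Φ.comp continuous_fst).add (continuous_Φ.comp (by fun_prop))
    have hZW : ∀ x ∈ Z, WO x := by
      rintro _ ⟨q, ⟨h1, h2⟩, rfl⟩
      obtain ⟨u, v, huv, e⟩ := hQA _ h1
      exact (G0_of_eq (h2.symm.trans e) huv).1
    have hT := countable_types hZc hZW
    have : ∀ p : G, ∃ x y, p ∈ Q → G0 x y ∧ p + p₀ = Φ x + Φ y := by
      intro p
      by_cases hp : p ∈ Q
      · obtain ⟨x, y, h⟩ := hQA p hp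
        exact ⟨x, y, fun _ => h⟩
      · exact ⟨default, default, fun h => absurd h hp⟩
    choose x y hxy using this
    refine MapsTo.countable_of_injOn (f := fun p => (tp (x p), tp (y p))) ?_ ?_ (hT.prod hT)
    · intro p hp
      refine ⟨mem_image_of_mem _ ⟨(x p, y p, p), ⟨hp, (hxy p hp).2⟩, rfl⟩,
        mem_image_of_mem _ ⟨(y p, x p, p), ⟨hp, ?_⟩, rfl⟩⟩
      rw [add_comm (Φ _)]
      exact (hxy p hp).2
    · intro p hp q hq e
      by_contra hne
      obtain ⟨u, v, huv, e'⟩ := hA hp.1 hq.1 hne
      have e1 : tp (x p) = tp (x q) := congrArg Prod.fst e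
      have e2 : tp (y p) = tp (y q) := congrArg Prod.snd e
      have e3 : Φ (x p) + Φ (y p) + (Φ (x q) + Φ (y q)) = Φ u + Φ v := by
        rw [← (hxy p hp).2, ← (hxy q hq).2, ← e', add_add_add_comm, G_add_self, add_zero]
      have := chi4 (fun z => if tp z = tp u then 1 else 0) e3
      simp only [e1, e2, zmod2_add_self, if_true, if_neg huv.2.2.symm, add_zero] at this
      exact zero_ne_one this
  refine ((countable_iUnion key).insert p₀).mono fun p hp => ?_
  by_cases h : p = p₀
  · exact Or.inl h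
  · obtain ⟨i, hi⟩ := Function.ne_iff.1 h
    exact Or.inr (mem_iUnion.2 ⟨i, hp, hi⟩)

theorem core : ∃ B : Set G, @MeasurableSet _ (borel _) B ∧
    (∃ H : Set G, ¬ H.Countable ∧ H.Pairwise fun x y => ∀ b ∈ B, ∀ b' ∈ B, b + x ≠ b' + y) ∧
    ∀ P : Set G, IsClosed P → (P.Pairwise fun x y => ∀ b ∈ B, ∀ b' ∈ B, b + x ≠ b' + y) →
      P.Countable := by
  have han := analytic_compl_A
  rw [AnalyticSet] at han
  obtain h0 | ⟨s, hs, hrange⟩ := han
  · have h1 : (0 : G) ∈ Aᶜ := zero_notMem_A
    rw [h0] at h1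
    exact absurd h1 (notMem_empty _)
  obtain ⟨B, hB, hB1, hB2⟩ := exists_borel s hs
  have hsum : ∀ b b' x y : G, b + x = b' + y ↔ b + (x + y) = b' := by
    intro b b' x y
    constructor
    · intro h
      rw [← add_assoc, h, add_assoc, G_add_self, add_zero]
    · intro h
      rw [← h, add_assoc, add_assoc, G_add_self, add_zero]
  refine ⟨B, hB, ?_, ?_⟩
  · obtain ⟨Y, hY, hYp⟩ := exists_uncountable
    refine ⟨Φ '' Y, fun h => hY (countable_of_injective_of_countable_image
      linearIndependent_Φ.injective.injOn h), ?_⟩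
    rintro _ ⟨x, hx, rfl⟩ _ ⟨y, hy, rfl⟩ hne b hb b' hb' e
    have hA : Φ x + Φ y ∈ A := ⟨x, y, hYp hx hy fun h => hne (by rw [h]), rfl⟩
    rw [hsum] at e
    rcases hB2 b hb b' hb' (fun i => by rw [← e]; simp [Φ]) with h | ⟨c, h⟩
    · rw [← h, add_eq_left] at e
      exact zero_notMem_A (e ▸ hA)
    · rw [← h, add_right_inj] at e
      have : s c ∈ Aᶜ := hrange ▸ mem_range_self c
      exact this (e ▸ hA)
  · intro P hP hPp
    have key : ∀ v : ZMod 2 × ZMod 2,
        (P ∩ {p | p (Sum.inr 0) = v.1 ∧ p (Sum.inr 1) = v.2}).Countable := by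
      intro v
      refine no_closed (hP.inter (IsClosed.inter (isClosed_eq (continuous_apply _)
        continuous_const) (isClosed_eq (continuous_apply _) continuous_const))) ?_
      intro p hp q hq hne
      by_contra hA
      obtain ⟨c, hc⟩ : p + q ∈ range s := hrange ▸ hA
      obtain ⟨b, hb, b', hb', e⟩ := hB1 c
        (by rw [hc, Pi.add_apply, hp.2.1, hq.2.1, zmod2_add_self])
        (by rw [hc, Pi.add_apply, hp.2.2, hq.2.2, zmod2_add_self])
      exact hPp hp.1 hq.1 hne b hb b' hb' ((hsum _ _ _ _).2 (hc ▸ e))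
    refine (countable_iUnion key).mono fun p hp => ?_
    exact mem_iUnion.2 ⟨(p (Sum.inr 0), p (Sum.inr 1)), hp, rfl, rfl⟩

end Pool.Agent.MP_15e54c_lc.H83
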